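import Pool.Agent.Helper74.CW.Defs

/-!
# Module SYM of the project CW: symmetry
-/

namespace Pool.Agent.Helper74.CW

open Module Polynomial

variable {F K : Type*} [Field F] [Field K] [Algebra F K]

theorem sym_mem_sc {ξ : K} (hξ : ξ ≠ 0) (T : Submodule F K) (x : K) :
    x ∈ sc ξ T ↔ ξ⁻¹ * x ∈ T := by
  unfold sc
  rw [Submodule.mem_map]
  constructor
  · rintro ⟨y, hy, rfl⟩
    simpa [hξ] using hy
  · intro h
    exact ⟨ξ⁻¹ * x, h, by simp [hξ]⟩

theorem sym_sc_sc {ξ η : K} (hξ : ξ ≠ 0) (hη : η ≠ 0) (T : Submodule F K) :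
    sc ξ (sc η T) = sc (ξ * η) T := by
  ext x
  rw [sym_mem_sc hξ, sym_mem_sc hη, sym_mem_sc (mul_ne_zero hξ hη)]
  rw [mul_inv, ← mul_assoc, mul_comm η⁻¹ ξ⁻¹]

theorem sym_sc_one (T : Submodule F K) : sc 1 T = T := by
  ext x
  rw [sym_mem_sc one_ne_zero]
  simp

theorem sym_sc_inf {ξ : K} (hξ : ξ ≠ 0) (S T : Submodule F K) :
    sc ξ (S ⊓ T) = sc ξ S ⊓ sc ξ T := by
  ext x
  simp only [Submodule.mem_inf, sym_mem_sc hξ]

theorem sym_finrank_sc {ξ : K} (hξ : ξ ≠ 0) (T : Submodule F K) :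
    finrank F (sc ξ T) = finrank F T := by
  have hinj : Function.Injective (LinearMap.mulLeft F ξ) := by
    intro a b h
    simpa [hξ] using h
  exact (Submodule.equivMapOfInjective _ hinj T).finrank_eq.symm

theorem sym_inf (S T : Submodule F K) {w v ξ : K} (hw : w ≠ 0) (hv : v ≠ 0) (hξ : ξ ≠ 0) :
    finrank F ↥(sc w S ⊓ sc ξ (sc v T)) = finrank F ↥(S ⊓ sc (w⁻¹ * ξ * v) T) := by
  have h1 : sc w S ⊓ sc ξ (sc v T) = sc w (S ⊓ sc (w⁻¹ * ξ * v) T) := by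
    rw [sym_sc_inf hw, sym_sc_sc hξ hv, sym_sc_sc hw (by positivity)]
    congr 2
    field_simp
  rw [h1, sym_finrank_sc hw]

theorem sym_swap (S T : Submodule F K) {ξ : K} (h1 : ξ ≠ 0) :
    finrank F ↥(T ⊓ sc ξ⁻¹ S) = finrank F ↥(S ⊓ sc ξ T) := by
  rw [inf_comm, ← sym_finrank_sc (inv_ne_zero h1) (S ⊓ sc ξ T), sym_sc_inf (inv_ne_zero h1),
    sym_sc_sc (inv_ne_zero h1) h1, inv_mul_cancel₀ h1, sym_sc_one]

theorem inn_swap (S T : Submodule F K) (i : ℕ) : inn S T i = inn T S i := by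
  unfold inn
  exact Nat.card_congr ⟨fun ξ => ⟨ξ.1⁻¹, inv_ne_zero ξ.2.1, (sym_swap S T ξ.2.1).trans ξ.2.2⟩,
    fun ξ => ⟨ξ.1⁻¹, inv_ne_zero ξ.2.1, (sym_swap T S ξ.2.1).trans ξ.2.2⟩,
    fun ξ => by simp, fun ξ => by simp⟩

theorem inn_sc (S T : Submodule F K) {w v : K} (hw : w ≠ 0) (hv : v ≠ 0) (i : ℕ) :
    inn (sc w S) (sc v T) i = inn S T i := by
  unfold inn
  refine Nat.card_congr ⟨fun ξ => ⟨w⁻¹ * ξ.1 * v,
      mul_ne_zero (mul_ne_zero (inv_ne_zero hw) ξ.2.1) hv,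
      (sym_inf S T hw hv ξ.2.1).symm.trans ξ.2.2⟩,
    fun ξ => ⟨w * ξ.1 * v⁻¹, mul_ne_zero (mul_ne_zero hw ξ.2.1) (inv_ne_zero hv), ?_⟩,
    fun ξ => ?_, fun ξ => ?_⟩
  · rw [sym_inf S T hw hv (mul_ne_zero (mul_ne_zero hw ξ.2.1) (inv_ne_zero hv))]
    have h1 : w⁻¹ * (w * ξ.1 * v⁻¹) * v = ξ.1 := by field_simp
    rw [h1]
    exact ξ.2.2
  · ext
    simp only
    field_simp
  · ext
    simp only
    field_simp

theorem Sim_symm {S T : Submodule F K} (h : Sim S T) : Sim T S := by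
  obtain ⟨ξ, h1, rfl⟩ := h
  exact ⟨ξ⁻¹, inv_ne_zero h1, by
    rw [sym_sc_sc (inv_ne_zero h1) h1, inv_mul_cancel₀ h1, sym_sc_one]⟩

theorem Sim_sc (S T : Submodule F K) {w v : K} (hw : w ≠ 0) (hv : v ≠ 0) :
    Sim (sc w S) (sc v T) ↔ Sim S T := by
  constructor
  · rintro ⟨ξ, h1, h⟩
    refine ⟨w⁻¹ * ξ * v, mul_ne_zero (mul_ne_zero (inv_ne_zero hw) h1) hv, ?_⟩
    have h2 := congrArg (sc w⁻¹) h
    rw [sym_sc_sc (inv_ne_zero hw) hw, inv_mul_cancel₀ hw, sym_sc_one,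
      sym_sc_sc h1 hv, sym_sc_sc (inv_ne_zero hw) (mul_ne_zero h1 hv), ← mul_assoc] at h2
    exact h2
  · rintro ⟨ξ, h1, rfl⟩
    refine ⟨w * ξ * v⁻¹, mul_ne_zero (mul_ne_zero hw h1) (inv_ne_zero hv), ?_⟩
    rw [sym_sc_sc hw h1, sym_sc_sc (mul_ne_zero (mul_ne_zero hw h1) (inv_ne_zero hv)) hv]
    congr 1
    field_simp

theorem inn_three [FiniteDimensional F K] {S T : Submodule F K} (hS : finrank F S = 3)
    (hT : finrank F T = 3) (h : ¬ Sim S T) : inn S T 3 = 0 := by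
  unfold inn
  rw [Nat.card_eq_zero]
  left
  refine ⟨fun ξ => h ⟨ξ.1, ξ.2.1, ?_⟩⟩
  have h1 : S ⊓ sc ξ.1 T = S :=
    Submodule.eq_of_le_of_finrank_eq inf_le_left (by rw [ξ.2.2, hS])
  have h2 : S ⊓ sc ξ.1 T = sc ξ.1 T :=
    Submodule.eq_of_le_of_finrank_eq inf_le_right (by rw [ξ.2.2, sym_finrank_sc ξ.2.1, hT])
  exact h1.symm.trans h2

/-- The multiplication map. -/
def sym_mul (t s : Fin 3 → K) : Matrix (Fin 3) (Fin 3) F →ₗ[F] K where
  toFun X := ∑ i, ∑ j, X i j • (t i * s j)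
  map_add' X Y := by
    simp only [Matrix.add_apply, add_smul, Finset.sum_add_distrib]
  map_smul' c X := by
    simp only [Matrix.smul_apply, smul_assoc, ← Finset.smul_sum, RingHom.id_apply]

theorem NN_finrank (t s : Fin 3 → K) : finrank F (NN F t s) +
    finrank F ↥(Submodule.span F (Set.range s) * Submodule.span F (Set.range t)) = 9 := by
  have h1 : NN F t s = LinearMap.ker (sym_mul (F := F) t s) := by
    ext X
    rfl
  have h2 : Submodule.span F (Set.range s) * Submodule.span F (Set.range t) =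
      LinearMap.range (sym_mul (F := F) t s) := by
    rw [Submodule.span_mul_span]
    apply le_antisymm
    · rw [Submodule.span_le]
      rintro _ ⟨_, ⟨j, rfl⟩, _, ⟨i, rfl⟩, rfl⟩
      refine ⟨Matrix.single i j 1, ?_⟩
      unfold sym_mul
      simp only [LinearMap.coe_mk, AddHom.coe_mk]
      rw [Finset.sum_eq_single i, Finset.sum_eq_single j]
      · simp [mul_comm]
      · intro b _ hb
        simp [hb.symm]
      · simp
      · intro b _ hb
        refine Finset.sum_eq_zero (fun j _ => ?_)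
        simp [hb.symm]
      · simp
    · rintro _ ⟨X, rfl⟩
      unfold sym_mul
      simp only [LinearMap.coe_mk, AddHom.coe_mk]
      refine Submodule.sum_mem _ (fun i _ => Submodule.sum_mem _ (fun j _ => ?_))
      refine Submodule.smul_mem _ _ (Submodule.subset_span ?_)
      exact ⟨s j, ⟨j, rfl⟩, t i, ⟨i, rfl⟩, by simp [mul_comm]⟩
  rw [h1, h2, add_comm, LinearMap.finrank_range_add_finrank_ker, Module.finrank_matrix]
  simp

end Pool.Agent.Helper74.CW
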