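import Pool.Agent.Helper74.CW.LINE
import Pool.Agent.Helper96.CW.PENC
import Pool.Agent.Helper96.CW.HOM

/-!
# The three dimensional kernels
-/

namespace Pool.Agent.Helper74.CW

open Module Polynomial

variable {F K : Type*} [Field F] [Field K] [Algebra F K]

/-- the determinant of the generic element of a net of matrices -/
private noncomputable def netC (N : Fin 3 → Matrix (Fin 3) (Fin 3) F) : MvPolynomial (Fin 3) F :=
  (∑ i, (MvPolynomial.X i : MvPolynomial (Fin 3) F) •
    (N i).map (MvPolynomial.C : F →+* MvPolynomial (Fin 3) F)).det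

private lemma aeval_netC {A : Type*} [CommRing A] [Algebra F A]
    (N : Fin 3 → Matrix (Fin 3) (Fin 3) F) (u : Fin 3 → A) :
    MvPolynomial.aeval u (netC N) = (∑ i, u i • (N i).map (algebraMap F A)).det := by
  unfold netC
  rw [AlgHom.map_det]
  congr 1
  ext i j
  simp [Matrix.sum_apply, Matrix.map_apply]

private lemma netC_homogeneous (N : Fin 3 → Matrix (Fin 3) (Fin 3) F) :
    (netC N).IsHomogeneous 3 := by
  have h1 : ∀ i j, ((∑ k, (MvPolynomial.X k : MvPolynomial (Fin 3) F) •
    (N k).map (MvPolynomial.C : F →+* MvPolynomial (Fin 3) F)) i j).IsHomogeneous 1 := by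
    intro i j
    rw [Matrix.sum_apply]
    apply MvPolynomial.IsHomogeneous.sum
    intro k _
    rw [Matrix.smul_apply, Matrix.map_apply, smul_eq_mul]
    have := (MvPolynomial.isHomogeneous_X F k).mul (MvPolynomial.isHomogeneous_C (Fin 3) (N k i j))
    simpa using this
  unfold netC
  rw [Matrix.det_apply]
  apply MvPolynomial.IsHomogeneous.sum
  intro σ _
  have h2 := MvPolynomial.IsHomogeneous.prod Finset.univ (fun i => (∑ k, (MvPolynomial.X k : MvPolynomial (Fin 3) F) •
    (N k).map (MvPolynomial.C : F →+* MvPolynomial (Fin 3) F)) (σ i) i) (fun _ => 1) (fun i _ => h1 _ _)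
  simp only [Finset.sum_const, Finset.card_univ, Fintype.card_fin, smul_eq_mul, mul_one] at h2
  rcases Int.units_eq_one_or (Equiv.Perm.sign σ) with h | h
  · rw [h, one_smul]
    exact h2
  · rw [h, Units.neg_smul, one_smul]
    exact h2.neg


/-- the vector `X s` -/
private def ap (X : Matrix (Fin 3) (Fin 3) F) (s : Fin 3 → K) : Fin 3 → K :=
  fun i => ∑ j, X i j • s j

private lemma mem_NN' {t s : Fin 3 → K} {X : Matrix (Fin 3) (Fin 3) F} :
    X ∈ NN F t s ↔ ∑ i, t i * ap X s i = 0 := by
  have h1 : X ∈ NN F t s ↔ ∑ i, ∑ j, X i j • (t i * s j) = 0 := Iff.rfl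
  rw [h1]
  unfold ap
  simp only [Finset.mul_sum, mul_smul_comm]

private lemma eq_zero_of_ap {s : Fin 3 → K} (hs : LinearIndependent F s)
    {X : Matrix (Fin 3) (Fin 3) F} (h : ∀ i, ap X s i = 0) : X = 0 := by
  ext i j
  exact Fintype.linearIndependent_iff.1 hs (fun j => X i j) (h i) j

private lemma two_le_entries {t s : Fin 3 → K} (ht : LinearIndependent F t)
    (hs : LinearIndependent F s) {X : Matrix (Fin 3) (Fin 3) F} (hX : X ∈ NN F t s)
    (hX0 : X ≠ 0) : 2 ≤ finrank F (Submodule.span F (Set.range (ap X s))) := by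
  by_contra hcon
  have hf : FiniteDimensional F (Submodule.span F (Set.range (ap X s))) :=
    FiniteDimensional.span_of_finite F (Set.finite_range _)
  have h1 : finrank F (Submodule.span F (Set.range (ap X s))) ≤ 1 := by omega
  rw [finrank_le_one_iff] at h1
  obtain ⟨p, hp⟩ := h1
  have h2 : ∀ i, ∃ c : F, c • (p : K) = ap X s i := by
    intro i
    obtain ⟨c, hc⟩ := hp ⟨ap X s i, Submodule.subset_span ⟨i, rfl⟩⟩
    exact ⟨c, by simpa using congrArg Subtype.val hc⟩
  choose c hc using h2
  rw [mem_NN'] at hX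
  have h3 : (∑ i, c i • t i) * (p : K) = 0 := by
    rw [← hX, Finset.sum_mul]
    refine Finset.sum_congr rfl fun i _ => ?_
    rw [← hc i, smul_mul_assoc, mul_smul_comm]
  apply hX0
  apply eq_zero_of_ap hs
  intro i
  rcases mul_eq_zero.1 h3 with h4 | h4
  · rw [← hc i, Fintype.linearIndependent_iff.1 ht c h4 i, zero_smul]
  · rw [← hc i, h4, smul_zero]

private lemma net_two (hB : Big F K) {t s : Fin 3 → K} (ht : LinearIndependent F t)
    (hs : LinearIndependent F s) {X Y : Matrix (Fin 3) (Fin 3) F} (hX : X ∈ NN F t s)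
    (hXY : LinearIndependent F ![X, Y]) {u v : K} (huv : u ≠ 0 ∨ v ≠ 0)
    (h : ∀ i, u * ap X s i + v * ap Y s i = 0) : Con (Submodule.span F (Set.range s)) := by
  rw [LinearIndependent.pair_iff] at hXY
  have hX0 : X ≠ 0 := by
    rintro rfl
    exact one_ne_zero (hXY 1 0 (by simp)).1
  have hY0 : Y ≠ 0 := by
    rintro rfl
    exact one_ne_zero (hXY 0 1 (by simp)).2
  have hu : u ≠ 0 := by
    rintro rfl
    have hv : v ≠ 0 := by simpa using huv
    apply hY0
    apply eq_zero_of_ap hs
    intro i
    have := h i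
    rw [zero_mul, zero_add] at this
    exact (mul_eq_zero.1 this).resolve_left hv
  have hρ : ∀ i, ap X s i = (-v / u) * ap Y s i := by
    intro i
    have := h i
    field_simp
    linear_combination this
  have hρF : (-v / u) ∉ Set.range (algebraMap F K) := by
    rintro ⟨r, hr⟩
    have h1 : X + (-r) • Y = 0 := by
      apply eq_zero_of_ap hs
      intro i
      have h2 : ap (X + (-r) • Y) s i = ap X s i - r • ap Y s i := by
        unfold ap
        simp only [Matrix.add_apply, Matrix.smul_apply, add_smul, Finset.sum_add_distrib,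
          smul_assoc, ← Finset.smul_sum]
        rw [neg_smul, sub_eq_add_neg]
      rw [h2, hρ i, ← hr, Algebra.smul_def, sub_self]
    have := (hXY 1 (-r) (by rw [one_smul]; exact h1)).1
    exact one_ne_zero this
  refine con_of hB (finrank_span_eq_card hs) hρF ?_
  refine le_trans (two_le_entries ht hs hX hX0) ?_
  have hf : FiniteDimensional F (Submodule.span F (Set.range s)) :=
    FiniteDimensional.span_of_finite F (Set.finite_range _)
  have hf2 : FiniteDimensional F ↥(Submodule.span F (Set.range s) ⊓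
    sc (-v / u) (Submodule.span F (Set.range s))) := Submodule.finiteDimensional_of_le inf_le_left
  have hmem : ∀ Z : Matrix (Fin 3) (Fin 3) F, ∀ i,
      ap Z s i ∈ Submodule.span F (Set.range s) := by
    intro Z i
    exact Submodule.sum_mem _ fun j _ => Submodule.smul_mem _ _ (Submodule.subset_span ⟨j, rfl⟩)
  apply Submodule.finrank_mono
  rw [Submodule.span_le]
  rintro _ ⟨i, rfl⟩
  refine ⟨hmem X i, ?_⟩
  unfold sc
  refine ⟨ap Y s i, hmem Y i, ?_⟩
  rw [LinearMap.mulLeft_apply, hρ i]


private lemma ap_sum (N : Fin 3 → Matrix (Fin 3) (Fin 3) F) (s : Fin 3 → K) (c : Fin 3 → F)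
    (j : Fin 3) : ap (∑ i, c i • N i) s j = ∑ i, c i • ap (N i) s j := by
  unfold ap
  simp only [Matrix.sum_apply, Matrix.smul_apply, Finset.sum_smul, Finset.smul_sum, smul_assoc]
  exact Finset.sum_comm

/-- the point of the cubic over `K` -/
private lemma exists_point {t s : Fin 3 → K} (ht : t ≠ 0) (hs : s ≠ 0)
    {N : Fin 3 → Matrix (Fin 3) (Fin 3) F} (hN : ∀ i, N i ∈ NN F t s) :
    ∃ u : Fin 3 → K, u ≠ 0 ∧ (∀ j, ∑ i, u i * ap (N i) s j = 0) ∧
      MvPolynomial.aeval u (netC N) = 0 := by
  have h1 : ∃ v : Fin 3 → K, v ≠ 0 ∧ Matrix.vecMul v (Matrix.of fun j i => ap (N i) s j) = 0 := by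
    refine ⟨t, ht, ?_⟩
    ext i
    rw [Matrix.vecMul, dotProduct]
    exact mem_NN'.1 (hN i)
  rw [Matrix.exists_vecMul_eq_zero_iff, ← Matrix.exists_mulVec_eq_zero_iff] at h1
  obtain ⟨u, hu, hu2⟩ := h1
  have h3 : ∀ j, ∑ i, u i * ap (N i) s j = 0 := by
    intro j
    have := congrFun hu2 j
    rw [Matrix.mulVec, dotProduct, Pi.zero_apply] at this
    rw [← this]
    refine Finset.sum_congr rfl fun i _ => ?_
    rw [Matrix.of_apply, mul_comm]
  refine ⟨u, hu, h3, ?_⟩
  rw [aeval_netC, ← Matrix.exists_mulVec_eq_zero_iff]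
  refine ⟨s, hs, ?_⟩
  ext j
  rw [Pi.zero_apply, ← h3 j, Matrix.mulVec, dotProduct]
  simp only [Matrix.sum_apply, Matrix.smul_apply, Matrix.map_apply, smul_eq_mul]
  unfold ap
  simp only [Finset.mul_sum, Finset.sum_mul]
  rw [Finset.sum_comm]
  refine Finset.sum_congr rfl fun i _ => Finset.sum_congr rfl fun k _ => ?_
  rw [Algebra.smul_def, mul_assoc]


private lemma ap_add_smul (X Y : Matrix (Fin 3) (Fin 3) F) (s : Fin 3 → K) (c : F) (j : Fin 3) :
    ap (X + c • Y) s j = ap X s j + c • ap Y s j := by
  unfold ap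
  simp only [Matrix.add_apply, Matrix.smul_apply, add_smul, Finset.sum_add_distrib,
    smul_assoc, ← Finset.smul_sum]

private lemma point_indep (hB : Big F K) {t s : Fin 3 → K} (ht : LinearIndependent F t)
    (hs : LinearIndependent F s) {N : Fin 3 → Matrix (Fin 3) (Fin 3) F}
    (hN : ∀ i, N i ∈ NN F t s) (hNi : LinearIndependent F N)
    (hcs : ¬ Con (Submodule.span F (Set.range s))) {u : Fin 3 → K} (hu : u ≠ 0)
    (h : ∀ j, ∑ i, u i * ap (N i) s j = 0) : LinearIndependent F u := by
  rw [Fintype.linearIndependent_iff]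
  intro c hc
  by_contra hcon
  push Not at hcon
  obtain ⟨k, hk⟩ := hcon
  rw [Fintype.linearIndependent_iff] at hNi
  simp only [Fin.sum_univ_three] at hc h hNi
  apply hcs
  have hmem : ∀ i r : F, ∀ X Y : Matrix (Fin 3) (Fin 3) F, X ∈ NN F t s → Y ∈ NN F t s →
      X + r • Y ∈ NN F t s := fun _ r X Y hX hY =>
    Submodule.add_mem _ hX (Submodule.smul_mem _ _ hY)
  have hck : (algebraMap F K) (c k) ≠ 0 := by
    rwa [_root_.map_ne_zero]
  simp only [Algebra.smul_def] at hc
  fin_cases k
  · simp only [Fin.zero_eta, Fin.isValue] at hk hck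
    refine net_two hB ht hs (X := N 1 + (-(c 1) / c 0) • N 0) (Y := N 2 + (-(c 2) / c 0) • N 0)
      (hmem 0 _ _ _ (hN 1) (hN 0)) ?_ (u := u 1) (v := u 2) ?_ ?_
    · rw [LinearIndependent.pair_iff]
      intro x y hxy
      have := hNi ![x * (-(c 1) / c 0) + y * (-(c 2) / c 0), x, y] (by
        simp only [Matrix.cons_val_zero, Matrix.cons_val_one, Matrix.cons_val]
        rw [← hxy]
        module)
      exact ⟨this 1, this 2⟩
    · by_contra h12
      push Not at h12
      rw [h12.1, h12.2] at hc
      simp only [mul_zero, add_zero] at hc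
      have h0 := (mul_eq_zero.1 hc).resolve_left hck
      apply hu
      ext i
      fin_cases i
      · exact h0
      · exact h12.1
      · exact h12.2
    · intro i
      have h5 := h i
      rw [ap_add_smul, ap_add_smul]
      simp only [Algebra.smul_def, map_div₀, map_neg]
      have h6 : u 0 = (-(algebraMap F K) (c 1) / (algebraMap F K) (c 0)) * u 1 +
          (-(algebraMap F K) (c 2) / (algebraMap F K) (c 0)) * u 2 := by
        field_simp
        linear_combination hc
      rw [h6] at h5
      linear_combination h5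
  · simp only [Fin.mk_one, Fin.isValue] at hk hck
    refine net_two hB ht hs (X := N 0 + (-(c 0) / c 1) • N 1) (Y := N 2 + (-(c 2) / c 1) • N 1)
      (hmem 0 _ _ _ (hN 0) (hN 1)) ?_ (u := u 0) (v := u 2) ?_ ?_
    · rw [LinearIndependent.pair_iff]
      intro x y hxy
      have := hNi ![x, x * (-(c 0) / c 1) + y * (-(c 2) / c 1), y] (by
        simp only [Matrix.cons_val_zero, Matrix.cons_val_one, Matrix.cons_val]
        rw [← hxy]
        module)
      exact ⟨this 0, this 2⟩
    · by_contra h12
      push Not at h12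
      rw [h12.1, h12.2] at hc
      simp only [mul_zero, add_zero, zero_add] at hc
      have h0 := (mul_eq_zero.1 hc).resolve_left hck
      apply hu
      ext i
      fin_cases i
      · exact h12.1
      · exact h0
      · exact h12.2
    · intro i
      have h5 := h i
      rw [ap_add_smul, ap_add_smul]
      simp only [Algebra.smul_def, map_div₀, map_neg]
      have h6 : u 1 = (-(algebraMap F K) (c 0) / (algebraMap F K) (c 1)) * u 0 +
          (-(algebraMap F K) (c 2) / (algebraMap F K) (c 1)) * u 2 := by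
        field_simp
        linear_combination hc
      rw [h6] at h5
      linear_combination h5
  · simp only [Fin.reduceFinMk, Fin.isValue] at hk hck
    refine net_two hB ht hs (X := N 0 + (-(c 0) / c 2) • N 2) (Y := N 1 + (-(c 1) / c 2) • N 2)
      (hmem 0 _ _ _ (hN 0) (hN 2)) ?_ (u := u 0) (v := u 1) ?_ ?_
    · rw [LinearIndependent.pair_iff]
      intro x y hxy
      have := hNi ![x, y, x * (-(c 0) / c 2) + y * (-(c 1) / c 2)] (by
        simp only [Matrix.cons_val_zero, Matrix.cons_val_one, Matrix.cons_val]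
        rw [← hxy]
        module)
      exact ⟨this 0, this 1⟩
    · by_contra h12
      push Not at h12
      rw [h12.1, h12.2] at hc
      simp only [mul_zero, add_zero, zero_add] at hc
      have h0 := (mul_eq_zero.1 hc).resolve_left hck
      apply hu
      ext i
      fin_cases i
      · exact h12.1
      · exact h12.2
      · exact h0
    · intro i
      have h5 := h i
      rw [ap_add_smul, ap_add_smul]
      simp only [Algebra.smul_def, map_div₀, map_neg]
      have h6 : u 2 = (-(algebraMap F K) (c 0) / (algebraMap F K) (c 2)) * u 0 +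
          (-(algebraMap F K) (c 1) / (algebraMap F K) (c 2)) * u 1 := by
        field_simp
        linear_combination hc
      rw [h6] at h5
      linear_combination h5

theorem net [Finite F] (hB : Big F K) {t s : Fin 3 → K} (ht : LinearIndependent F t)
    (hs : LinearIndependent F s)
    (hsim : ¬ Sim (Submodule.span F (Set.range s)) (Submodule.span F (Set.range t)))
    (h3 : finrank F (NN F t s) = 3) (hcs : ¬ Con (Submodule.span F (Set.range s)))
    (hct : ¬ Con (Submodule.span F (Set.range t))) :
    ∃ C : MvPolynomial (Fin 3) F, Cub K C ∧ sing (NN F t s) = zeros C := by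
  obtain ⟨b⟩ : Nonempty (Basis (Fin 3) F (NN F t s)) := ⟨Module.finBasisOfFinrankEq F _ h3⟩
  have hNN : ∀ i, (b i : Matrix (Fin 3) (Fin 3) F) ∈ NN F t s := fun i => (b i).2
  have hNi : LinearIndependent F (fun i => (b i : Matrix (Fin 3) (Fin 3) F)) :=
    b.linearIndependent.map' (Submodule.subtype _) (Submodule.ker_subtype _)
  obtain ⟨N, hN⟩ : ∃ N : Fin 3 → Matrix (Fin 3) (Fin 3) F,
    N = fun i => (b i : Matrix (Fin 3) (Fin 3) F) := ⟨_, rfl⟩
  rw [← hN] at hNi
  have hNN' : ∀ i, N i ∈ NN F t s := by
    intro i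
    rw [hN]
    exact hNN i
  have hNi2 := Fintype.linearIndependent_iff.1 hNi
  have ht0 : t ≠ 0 := fun h => ht.ne_zero 0 (congrFun h 0)
  have hs0 : s ≠ 0 := fun h => hs.ne_zero 0 (congrFun h 0)
  have hsum : ∀ v : Fin 3 → F, ∑ i, v i • N i ∈ NN F t s := fun v =>
    Submodule.sum_mem _ fun i _ => Submodule.smul_mem _ _ (hNN' i)
  have heval : ∀ v : Fin 3 → F, MvPolynomial.eval v (netC N) = (∑ i, v i • N i).det := by
    intro v
    rw [← MvPolynomial.coe_aeval_eq_eval]
    refine (aeval_netC N v).trans ?_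
    congr 1
  refine ⟨netC N, ⟨netC_homogeneous N, ?_, ?_⟩, ?_⟩
  · by_contra hirr
    obtain ⟨L, Q, -, hL, hLQ⟩ := linear_factor (netC_homogeneous N) hirr
    obtain ⟨v, w, hvw, h0⟩ := line_of_linear_factor (Q := Q) hL
    rw [← hLQ, aeval_netC] at h0
    rw [LinearIndependent.pair_iff] at hvw
    have hXY : LinearIndependent F ![∑ i, v i • N i, ∑ i, w i • N i] := by
      rw [LinearIndependent.pair_iff]
      intro x y hxy
      apply hvw
      have h4 := hNi2 (fun i => x * v i + y * w i) (by
        rw [← hxy, Finset.smul_sum, Finset.smul_sum, ← Finset.sum_add_distrib]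
        refine Finset.sum_congr rfl fun i _ => ?_
        module)
      ext i
      simpa using h4 i
    rcases pencil hB ht hs (hsum v) (hsum w) hXY (by
      rw [← h0]
      congr 1
      refine Matrix.ext fun i j => ?_
      simp only [Matrix.add_apply, Matrix.map_apply, Matrix.smul_apply, Matrix.sum_apply,
        smul_eq_mul, map_sum, map_mul, Finset.mul_sum, ← Finset.sum_add_distrib]
      refine Finset.sum_congr rfl fun k _ => ?_
      rw [← Polynomial.C_eq_algebraMap]
      ring) with h | h | h
    · exact hcs h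
    · exact hct h
    · exact hsim h
  · obtain ⟨u, hu, hu2, hu3⟩ := exists_point ht0 hs0 hNN'
    exact ⟨u, point_indep hB ht hs hNN' hNi hcs hu hu2, hu3⟩
  · unfold sing zeros
    symm
    refine Nat.card_congr (Equiv.ofBijective (fun v => ⟨∑ i, (v : Fin 3 → F) i • N i,
      hsum _, ?_, ?_⟩) ⟨?_, ?_⟩)
    · intro h0
      exact v.2.1 (funext fun i => hNi2 _ h0 i)
    · rw [← heval]
      exact v.2.2
    · intro v w hvw
      have h4 := congrArg Subtype.val hvw
      apply Subtype.ext
      ext i
      have h5 := hNi2 (fun i => (v : Fin 3 → F) i - (w : Fin 3 → F) i) (by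
        simp only [sub_smul, Finset.sum_sub_distrib]
        exact sub_eq_zero.2 h4) i
      exact sub_eq_zero.1 h5
    · rintro ⟨X, hX, hX0, hXd⟩
      have h4 : ∑ i, b.repr ⟨X, hX⟩ i • N i = X := by
        have h5 := congrArg (NN F t s).subtype (b.sum_repr ⟨X, hX⟩)
        rw [map_sum] at h5
        rw [hN]
        simpa only [map_smul, Submodule.subtype_apply] using h5
      refine ⟨⟨fun i => b.repr ⟨X, hX⟩ i, ?_, ?_⟩, Subtype.ext h4⟩
      · intro h0
        apply hX0
        rw [← h4]
        refine Finset.sum_eq_zero fun i _ => ?_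
        have := congrFun h0 i
        simp only [Pi.zero_apply] at this
        rw [this, zero_smul]
      · rw [heval, h4]
        exact hXd

end Pool.Agent.Helper74.CW
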